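import Pool.Agent.W584.OctaCycle

/-!
# Rognes' connectivity conjecture fails

For the Euclidean domain `R = ℤ[1/11]` the common basis complex `CB_3(R)` has nonzero reduced
rational homology in dimension `2`, whereas the conjecture allows only dimension `2 * 3 - 3 = 3`.
The cycle is the octahedron on the six lines spanned by
`e₁, e₂, e₃, (1, 0, -3), (2, 1, 0), (0, 2, 1)`. It is detected by an explicit simplicial two-cocycle
made from a modular symbol of level `11`.

The definitions `Pool.Agent.W584.bd`, `Pool.Agent.W584.IsChain` are in `Pool/Agent/W584/Simp.lean`.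
-/

namespace Pool.Agent.Results.MP_ca431a_al.RognesConnectivity

open Pool.Agent.W584

/-- `W` is a summand of `R ^ d`: it has a complement. -/
def IsSummand (R : Type) [CommRing R] (d : ℕ) (W : Submodule R (Fin d → R)) : Prop :=
  ∃ W' : Submodule R (Fin d → R), IsCompl W W'

/-- The finite set `s` of submodules of `R ^ d` is a simplex of the common basis complex
`CB_d(R)` (the empty simplex included): its members are nonzero proper summands, and there is a
basis of `R ^ d` such that each member is the span of a subset of that basis. -/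
def CB (R : Type) [CommRing R] (d : ℕ) (s : Finset (Submodule R (Fin d → R))) : Prop :=
  (∀ W ∈ s, IsSummand R d W ∧ W ≠ ⊥ ∧ W ≠ ⊤) ∧
    ∃ b : Module.Basis (Fin d) R (Fin d → R), ∀ W ∈ s, ∃ I : Set (Fin d),
      W = Submodule.span R (b '' I)

section aux

variable {R : Type} [CommRing R] [IsDomain R]

/-- The facts about three independent lines which are needed. -/
structure Facts (X Y Z : Submodule R (V3 R)) : Prop where
  h1 : X ≠ Y
  h2 : X ≠ Z
  h3 : Y ≠ Z
  h4 : ∀ s : Finset (Submodule R (V3 R)), (∀ W ∈ s, W = X ∨ W = Y ∨ W = Z) → CB R 3 s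

theorem facts {a1 a2 a3 b1 b2 b3 c1 c2 c3 : ℤ}
    (hdet : IsUnit ((a1 * (b2 * c3 - b3 * c2) - b1 * (a2 * c3 - a3 * c2) +
      c1 * (a2 * b3 - a3 * b2) : ℤ) : R)) :
    Facts (l3 R a1 a2 a3) (l3 R b1 b2 b3) (l3 R c1 c2 c3) := by
  obtain ⟨b, e0, e1, e2⟩ := three_lines hdet
  have key : ∀ i j : Fin 3, i ≠ j → S b {i} ≠ S b {j} := by
    intro i j hij h
    rw [S_eq_S_iff] at h
    exact hij (Set.singleton_injective h)
  have hprop : ∀ i : Fin 3, IsSummand R 3 (S b {i}) ∧ S b {i} ≠ ⊥ ∧ S b {i} ≠ ⊤ := by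
    intro i
    refine ⟨⟨_, isCompl_S b {i}⟩, ?_, ?_⟩
    · intro h
      have h1 : b i ∈ S b {i} := b_mem_S b (Set.mem_singleton i)
      rw [h, Submodule.mem_bot] at h1
      exact b.ne_zero i h1
    · intro h
      obtain ⟨j, hj⟩ : ∃ j : Fin 3, j ≠ i := exists_ne i
      have h1 : b j ∈ S b {i} := by rw [h]; trivial
      rw [mem_S] at h1
      have := h1 j (by simpa using hj)
      simp at this
  refine ⟨?_, ?_, ?_, ?_⟩
  · rw [e0, e1]; exact key 0 1 (by decide)
  · rw [e0, e2]; exact key 0 2 (by decide)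
  · rw [e1, e2]; exact key 1 2 (by decide)
  · intro s hs
    refine ⟨?_, b, ?_⟩
    · intro W hW
      rcases hs W hW with rfl | rfl | rfl
      · rw [e0]; exact hprop 0
      · rw [e1]; exact hprop 1
      · rw [e2]; exact hprop 2
    · intro W hW
      rcases hs W hW with rfl | rfl | rfl
      · exact ⟨{0}, e0⟩
      · exact ⟨{1}, e1⟩
      · exact ⟨{2}, e2⟩

theorem main (H : IsZ11 R) (o : LinearOrder (Submodule R (V3 R))) :
    ∃ c : Finset (Submodule R (V3 R)) →₀ ℤ, IsChain (CB R 3) 3 c ∧ bd c = 0 ∧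
      ∀ N : ℤ, N ≠ 0 → ¬ ∃ b : Finset (Submodule R (V3 R)) →₀ ℤ,
        IsChain (CB R 3) 4 b ∧ bd b = N • c := by
  have t1 : Facts (l3 R 1 0 0) (l3 R 0 1 0) (l3 R 0 0 1) := facts (unit_of H (by norm_num))
  have t2 : Facts (l3 R 1 0 (-3)) (l3 R 0 1 0) (l3 R 0 0 1) := facts (unit_of H (by norm_num))
  have t3 : Facts (l3 R 1 0 0) (l3 R 2 1 0) (l3 R 0 0 1) := facts (unit_of H (by norm_num))
  have t4 : Facts (l3 R 1 0 0) (l3 R 0 1 0) (l3 R 0 2 1) := facts (unit_of H (by norm_num))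
  have t5 : Facts (l3 R 1 0 0) (l3 R 2 1 0) (l3 R 0 2 1) := facts (unit_of H (by norm_num))
  have t6 : Facts (l3 R 1 0 (-3)) (l3 R 0 1 0) (l3 R 0 2 1) := facts (unit_of H (by norm_num))
  have t7 : Facts (l3 R 1 0 (-3)) (l3 R 2 1 0) (l3 R 0 0 1) := facts (unit_of H (by norm_num))
  have t8 : Facts (l3 R 1 0 (-3)) (l3 R 2 1 0) (l3 R 0 2 1) := facts (unit_of H (by norm_num))
  have hO : Oct (l3 R 1 0 0) (l3 R 0 1 0) (l3 R 0 0 1) (l3 R 1 0 (-3)) (l3 R 2 1 0)
      (l3 R 0 2 1) :=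
    ⟨t1.h1, t1.h2, t1.h3, t2.h1, t2.h2, t3.h1, t3.h3, t4.h2, t4.h3, t7.h1, t6.h2, t5.h3⟩
  refine ⟨oct (l3 R 1 0 0) (l3 R 0 1 0) (l3 R 0 0 1) (l3 R 1 0 (-3)) (l3 R 2 1 0) (l3 R 0 2 1),
    isChain_oct' hO t1.h4 t2.h4 t3.h4 t4.h4 t5.h4 t6.h4 t7.h4 t8.h4, bd_oct hO, ?_⟩
  rintro N hN ⟨b, hb, hbd⟩
  have h0 : LA AA (bd b) = 0 := by
    apply LA_bd_eq_zero_of_ne AA (CB R 3) _ hb
    intro s hK x hx y hy z hz w hw h1 h2 h3 h4 h5 h6
    have hCom : Com (s : Set (Submodule R (V3 R))) := ⟨fun W hW => (hK.1 W hW).2, hK.2⟩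
    exact AA_cocycle H hCom hx hy hz hw h1 h2 h3 h4 h5 h6
  rw [hbd, map_zsmul, LA_oct AA AA_swap1 AA_swap2 hO, AA_octahedron H] at h0
  apply hN
  simpa using h0

end aux

/-- Disproof of Rognes' connectivity conjecture: for the Euclidean domain `R = ℤ[1/11]`, and any
linear order on the vertices (used only to orient the simplices), the complex `CB_3(R)` has a
simplicial two-cycle `c` such that no nonzero multiple of `c` is a boundary. -/
theorem result :
    ∃ (R : Type) (_ : EuclideanDomain R), Nonempty (R ≃+* Localization.Away (11 : ℤ)) ∧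
      ∀ _ : LinearOrder (Submodule R (Fin 3 → R)),
        ∃ c : Finset (Submodule R (Fin 3 → R)) →₀ ℤ, IsChain (CB R 3) 3 c ∧ bd c = 0 ∧
          ∀ N : ℤ, N ≠ 0 → ¬ ∃ b : Finset (Submodule R (Fin 3 → R)) →₀ ℤ,
            IsChain (CB R 3) 4 b ∧ bd b = N • c := by
  let _ : EuclideanDomain Z11 := euclideanZ11
  exact ⟨Z11, euclideanZ11, ⟨RingEquiv.refl _⟩, fun o => main isZ11_euclidean o⟩

end Pool.Agent.Results.MP_ca431a_al.RognesConnectivity
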